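import Mathlib
import Pool.Agent.V7H82.NR.Main
import Pool.Agent.V7H82.LR.FinT

/-!
# Finiteness of unramified cohomology of degree three for varieties dominated by abelian varieties
# over finite fields

Over a finite field each abelian variety becomes isogenous, after a finite extension, to the
reduction `Y` of an abelian variety of CM type (`RedAV`; Honda, Tate). Let `Z` be such a variety,
with CM fields `E i` and Frobenius endomorphisms `π i ∈ E i`. The complex embeddings of the fields
`E i` fall into classes: two embeddings are linked if they can be joined by a chain of embeddings
such that no automorphism of the complex numbers fixes one of two neighbours and conjugates the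
other. Each class shall be

* big: inside one factor, any two pairs of conjugate embeddings can be moved to any two others, and
  the number `b` of the pairs is not one of `3, 4, 10, 16, 28`, or `b > 4` is prime, or odd with the
  same homogeneity;
* or a tower: inside one factor, which has a CM subfield `F` such that `E / F` has degree larger
  than `4`, and the embeddings over each embedding of `F` are permuted doubly homogeneously, or
  cyclically and of prime number, by the automorphisms which fix the others; no power of the
  Frobenius endomorphism lies in a proper subfield over `F`;
* or small: inside a good set of factors, for example one factor of dimension at most five.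

Let `Y` be isogenous to a product of powers of the factors of `Z` and of a supersingular abelian
variety, of any dimension (at least four, otherwise replace `Y` by its product with supersingular
elliptic curves), and let `X` be a smooth projective variety over a finite field `k` which
is dominated by `Y` over a finite extension of `k`. Then **`H³_nr(X, ℚ/ℤ(2))` is finite**. The slopes
and the CM types are arbitrary; no hypothesis is made on the Tate conjecture or on the conjecture of
Beilinson, and in codimension larger than two there may be Tate classes on `Y` which are not known
to be algebraic.

Proof. A Tate class of codimension two on `Y` gives relations of length four between the Frobenius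
eigenvalues; these are generated by relations of length two and relations on the small factors
(equiangular tight frames, see `Pool.Agent.V7H82.LR`), so the class is algebraic. Hence the Tate
classes and the cycles of codimension two are dual to each other, and the projector to the Tate part
of the motive `h⁴(Y)` is given by cycles, up to a nilpotent correspondence (Kimura). As Frobenius acts
on `CH²(Y)_ℚ` as `q ^ 2`, rational and numerical equivalence coincide on `CH²(Y)_ℚ`
(`rat_num`; Soulé's and Kahn's method), and on `CH²(X)_ℚ`. So `CH²(X)` is a lattice up to torsion, in
duality with the cycles of complementary dimension, and only finitely many elements of
`CH²(X) ⊗ ℚ/ℤ` have zero intersection numbers (`finite_ker`). The kernel of the cycle map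
`CH²(X) ⊗ ℚ/ℤ → H⁴_et(X, ℚ/ℤ(2))` is contained in this finite group, and it is the quotient of the
unramified cohomology by a quotient of the finite group `H³_et(X, ℚ/ℤ(2))`.
-/

set_option autoImplicit false

namespace Pool.Agent.Results.MP_859dd5_ag.AbelianDominatedH82

open Pool.Agent.W495.TA Pool.Agent.TH117.BL Pool.Agent.V7H82.LR Pool.Agent.V7H82.NR

/-- **Finiteness of the unramified cohomology `H³_nr(X, ℚ/ℤ(2))`** of the smooth projective varieties
`X` over finite fields which are dominated by abelian varieties with good classes of linked Frobenius
eigenvalues. -/
theorem result (p : ℕ) [Fact p.Prime] (ν : PadicAlgCl p ≃+* ℂ) (Ω : Type) [Field Ω]
    [IsAlgClosed Ω] [CharZero Ω] (Z Y : RedAV p ν) (hZ : HasGoodClassesT 2 Z)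
    (hY : IsPowersTimesSupersingular Z Y) (D : ChowData Ω Y 2) (X : UnramifiedData D) :
    Finite X.Nr :=
  finite_unramified Z (elementary_of_goodT hZ) Ω Y hY D X

end Pool.Agent.Results.MP_859dd5_ag.AbelianDominatedH82
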