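import Mathlib
import Pool.Agent.N578.LB.Main
import Pool.Agent.V7H82.NR.GenMain

/-!
# Finiteness of unramified cohomology of degree three for almost all abelian varieties times surfaces

Let `g i` (`i` in a finite set `I`) be positive integers, `r` an integer smaller than all the `g i` and
`E` a number field. Put `n = ∑ g i`. For a prime power `q` a point `x` of `ℤ ^ n` gives monic
polynomials `h i` of degree `g i` and the polynomials `f i = X ^ (g i) h i (X + q / X)`; all Weil
`q`-polynomials of degree `2 g i` are of this form, and by Weil, Honda and Tate they correspond to the
isogeny classes of abelian varieties of dimension `g i` over the field with `q` elements (up to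
multiplicities).

The property (`UnramifiedForRankOver`): for all `s > 0`, all abelian varieties `A` over the field with
`q ^ s` elements which are isogenous to products of powers of abelian varieties coming from the field
with `q` elements, with characteristic polynomials `f i`, all smooth projective `Z` whose Frobenius
eigenvalues and their conjugates generate a group of rank at most `r` modulo the numbers with a power
in `E`, for which homologically trivial self-correspondences of `A × Z` are nilpotent and rational and
numerical equivalence coincide on `Z` (for instance a point, a curve or a surface with this rank, or a
supersingular abelian variety), and all smooth projective varieties `X` over finite fields which are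
dominated by `A × Z`: **the unramified cohomology group `H³_nr(X, ℚ/ℤ(2))` is finite.**

The theorem says that the exceptions are rare **everywhere**: for all `q` and all `B ≥ 2` the
exceptions are a proportion `O (B ^ (-1 / 3) log B)` of the points in every parallelepiped, with sides
at least `B`, of every translate of a lattice of finite index, where the index may have up to
`B ^ (1 / 4)` prime factors and the basis is arbitrary. The constant does not depend on `q`. Moreover
there is a constant `R` such that for all `q ≥ R` every point of `ℤ ^ n` has a good point at distance
at most `R`. So the finiteness holds for all powers of almost all abelian varieties over finite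
fields, times surfaces with few Frobenius eigenvalues, with all Newton polygons in residue classes.

The proof. The sieve of `Pool.Agent.Results.MP_38de51_ag.LatticeBoxes` gives that the relations between
the Frobenius eigenvalues of `A` and `Z` are the trivial ones, for almost all `x`; then
(`chowForRankOver_of_good`) the Chow groups of `A × Z` are generated by products of divisors on `A` and
cycles on `Z`, and rational and numerical equivalence coincide on `A × Z`. New is the step to
unramified cohomology (`finite_of_ratEqNum`): the group `CH²(X)` is a lattice up to torsion, in
duality with the cycles of complementary dimension, and so the kernel of the cycle map on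
`CH²(X) ⊗ ℚ/ℤ` is finite.
-/

set_option autoImplicit false

namespace Pool.Agent.Results.MP_859dd5_ag.LatticeBoxesH82

open Polynomial Pool.Agent.W484.TB Pool.Agent.W484.CK Pool.Agent.N578.LB Pool.Agent.V7H82.NR

/-- For positive integers `g i > r` and a number field `E`, the property
`UnramifiedForRankOver E q r f` (finiteness of `H³_nr(X, ℚ/ℤ(2))` for all `X` dominated by `A × Z`) of
families `f` of Weil `q`-polynomials of degrees `2 g i` holds `InAllLattices`: for a constant `C`, all
prime powers `q`, all `B ≥ 2`, in every parallelepiped with sides at least `B` of every translate of a
lattice whose index has at most `B ^ (1 / 4)` prime factors the exceptions are a proportion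
`≤ C B ^ (-1 / 3) log B`; and for a constant `R` and `q ≥ R` every point is at distance at most `R` from
a good one. -/
theorem result {I : Type} [Fintype I] [DecidableEq I] (g : I → ℕ) (r : ℕ) (hr : ∀ i, r < g i)
    (E : IntermediateField ℚ ℂ) [FiniteDimensional ℚ E] :
    InAllLattices g (fun q f => UnramifiedForRankOver E q r f) :=
  inAllLattices (splitPrimes E) (dense_splitPrimes E) g (fun i => (Nat.zero_le r).trans_lt (hr i)) _
    fun _ hq x hx => unramified_of_good g E hq.one_lt r hr x hx

end Pool.Agent.Results.MP_859dd5_ag.LatticeBoxesH82
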