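import Pool.Agent.N578.LB.Main
import Pool.Agent.V7H82.NR.GenMain
import Pool.Agent.V7H14.WP.Fin

/-!
# Finiteness of unramified cohomology of degree three near the points of the space of real Weil polynomials

Let `g i` (`i` in a finite set `I`) be positive integers, `n = ∑ g i` and `G` the maximum of the `g i`. For a prime power
`q` a point `x` of `ℤ ^ n` gives the polynomials `h i = X ^ (g i) + ∑ x_(i,k) X ^ k` and `f i = X ^ (g i) h i (X + q / X)`;
all Weil `q`-polynomials of degree `2 g i` are of this form, and by Weil, Honda and Tate they correspond to the isogeny
classes of abelian varieties of dimension `g i` over the field with `q` elements (up to multiplicities). A real point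
`ξ` of `ℝ ^ n` gives normalised real polynomials (for `ξ` in an open set with all roots in `(-2, 2)`: the sums of the pairs of
conjugate Frobenius eigenvalues, divided by `√q`), and the points `x` with
`|x_(i,k) - q ^ ((g i - k) / 2) ξ_(i,k)| ≤ q ^ η` are near `ξ`; for `ξ` in the open set and `q` large all of them come from isogeny
classes.

The property (`UnramifiedForRankOver`, of helper82): for all `s > 0`, all abelian varieties `A` over the field with
`q ^ s` elements which are isogenous to products of powers of abelian varieties coming from the field
with `q` elements, with characteristic polynomials `f i`, all smooth projective `Z` whose Frobenius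
eigenvalues and their conjugates generate a group of rank at most `r` modulo the numbers with a power
in `E`, for which homologically trivial self-correspondences of `A × Z` are nilpotent and rational and
numerical equivalence coincide on `Z` (for instance a point, a curve or a surface with this rank), and all
smooth projective varieties `X` over finite fields which are dominated by `A × Z`: **the unramified
cohomology group `H³_nr(X, ℚ/ℤ(2))` is finite.**

`LatticeBoxesH82` shows that the points without the property are rare in all boxes. Here: there is ONE exceptional
set `Z` of real points, of Hausdorff dimension smaller than `n`, such that for all `ξ` outside `Z`, ALL number fields `E`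
and all `r < min (g i)`, ALL the points near `ξ` have the property:

1. for all but finitely many `q` in a given set `𝒬` of prime powers with at most `B ^ (τ + o(1))` elements up to `B`, if
   `n η + τ < 1 / 6`; the dimension of `Z` is at most `n - (1 / 6 - n η - τ) / (G / 2 - η)`;
2. for all primes `p` and all large powers `q = p ^ m`, if `n η < 1 / 6`; the dimension of `Z` is at most
   `n - (1 / 6 - n η) / (G / 2 - η)`, for instance `n - 1 / (3 G)` for `η = 0`;
3. for all but finitely many of the prime powers `q = p ^ m` with `m ≥ k`, for `k ≥ 7` and `n η + 1 / k < 1 / 6`; the dimension
   of `Z` is at most `n - (1 / 6 - n η - 1 / k) / (G / 2 - η)`;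
4. for almost all `ξ`, all `η` with `n η < 1 / 6` and all `β > 5 / 6 + n η`, also for all but at most `C Q ^ β` of the prime powers
   `q ≤ Q`.

Proof. Near `ξ` one takes the point of a grid of mesh `q ^ (-(G / 2 - η))`. The grid points near the
exceptional points of bounded size are `O (q ^ (n G / 2 - 1 / 6 + ε))` in number (`V7H14/WP`), and the tool
`R559/NP` bounds the dimension of the set of the `ξ` which are near infinitely many of them. Part 4 is from `N220/ME`.
-/

set_option autoImplicit false

namespace Pool.Agent.Results.MP_859dd5_ag.NearRealPolynomialsH14

open Polynomial Pool.Agent.W484.TB Pool.Agent.W484.CK Pool.Agent.N578.LB Pool.Agent.V7H82.NR Pool.Agent.V7H14.WP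

/-- For positive integers `g i` the property `UnramifiedForRankOver E q r f` (finiteness of `H³_nr(X, ℚ/ℤ(2))` for all `X`
dominated by `A × Z`) of families `f` of Weil `q`-polynomials of degrees `2 g i` holds near all real points outside a set
of Hausdorff dimension smaller than `n = ∑ g i`, independent of the number field `E` and of `r` (`NearReal`). -/
theorem result {I : Type} [Fintype I] [DecidableEq I] [Nonempty I] (g : I → ℕ) (hg : ∀ i, 0 < g i) :
    NearReal g (fun E r q f => UnramifiedForRankOver E q r f) :=
  nearReal g _ (fun E hE r hr => inAllLattices (splitPrimes E) (dense_splitPrimes E) g
    (fun i => (Nat.zero_le r).trans_lt (hr i)) _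
      fun _ hq x hx => unramified_of_good g E hq.one_lt r hr x hx)
    (Finset.sum_pos (fun i _ => hg i) Finset.univ_nonempty)

end Pool.Agent.Results.MP_859dd5_ag.NearRealPolynomialsH14
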