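import Mathlib
import Pool.Agent.V7H82.NR.Main
import Pool.Agent.V7H82.MO.Main
import Pool.Agent.V7H95.Fin.Elem

/-!
# Finiteness of unramified cohomology of degree three for varieties dominated by abelian varieties
# over finite fields whose Frobenius eigenvalues lie in regular blocks

Over a finite field each abelian variety becomes isogenous, after a finite extension, to the
reduction of an abelian variety of CM type (`RedAV`; Honda, Tate). Let `Z` be such a variety over the
field with `q` elements. The complex Frobenius eigenvalues `x` on its first cohomology have slopes `λ`
(`slope`, normalised such that `q` has slope one), the complex conjugate of `x` is `q / x`; the weights
are the numbers `u = D (2 λ - 1)`, with a denominator `D > 0` such that they are integers (one may take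
another `D` for each Galois orbit). Suppose (`HasRegularBlocks`) that each eigenvalue `x` of `Z`

* generates a number field which has degree `ℓ ^ k`, `ℓ` a prime number, over an imaginary quadratic
  subfield `K`, and `ℓ` does not divide the sum of the weights over the conjugates of `x` over `K`
  (`IsOverQuadratic`);
* or it generates a field of degree `2 ℓ ^ k`, and the sum of the weights over each set that contains
  one of each two complex conjugate conjugates of `x` is not divisible by `ℓ`
  (`HasPrimePowerDegree`);
* or it belongs to a regular block (`IsInRegularBlock`): a set `B` of eigenvalues without complex
  conjugate elements which is stable under a group `P` of automorphisms of the complex numbers that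
  act on `B` with orders which are powers of a prime number `ℓ`, such that `B` is one orbit of `P` and
  for some automorphism `σ` the sum of the weights `u (σ y)`, `y ∈ B`, is not divisible by `ℓ`; or, more
  generally, such that all functions on `B` modulo `ℓ` which are invariant under `P` and orthogonal to
  all translates of the weights vanish (for instance `B = {x}`, if some conjugate of `x` has a weight
  which is not divisible by `ℓ`);
* or it is real (supersingular), or it belongs to a small class, for example to a factor of dimension
  at most five which is independent of the other factors.

In the first three cases `x` (the block) shall be flipped against the nonreal eigenvalues outside of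
its Galois orbit (outside of `B` and its conjugate): an automorphism of the complex numbers fixes one of
the two and conjugates the other, or maps `x` to `y` and `y` to the conjugate of `x`. This is no
condition if `Z` is a power of a simple variety, in the first two cases. **Nothing is assumed on the
Galois groups of the number fields**, on the endomorphism algebras (which need not be
commutative) and on the dimensions.

Let `Y` be isogenous (over an algebraic closure) to a product of powers of the factors of `Z` and of a
supersingular abelian variety, and let `X` be a smooth projective variety over a finite field `k`
which is dominated by `Y` over a finite extension of `k`. Then **`H³_nr(X, ℚ/ℤ(2))` is finite**. No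
hypothesis is made on the Tate conjecture or on the conjecture of Beilinson.

Proof. A multiplicative relation between the Frobenius eigenvalues, `q` and roots of unity is a
relation between the translates of the weights. It splits according to the blocks, since the
correlation of flipped eigenvalues is zero (`rel_block`). On a block, the relations modulo `ℓ` form a
vector space over the field with `ℓ` elements on which a group acts through an `ℓ`-group; if there is a
relation, then there is a nonzero invariant one, which contradicts the condition on the weights
(`block_mod`; if the degree is `ℓ ^ k` over an imaginary quadratic field one takes a Sylow subgroup,
which is transitive). So all relations are generated by those between complex conjugate eigenvalues and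
by those between the eigenvalues of the small classes (`elementary_of_blocks`), and all Tate classes of
codimension two on `Y` are algebraic. The step from there to the unramified cohomology is due to
`Pool.Agent.V7H82.NR` (`finite_unramified`): by the nilpotence of homologically trivial
correspondences (Kimura) and the method of Soulé and Kahn, rational and numerical equivalence coincide
on `CH²(X)_ℚ`, and the kernel of the cycle map on `CH²(X) ⊗ ℚ/ℤ` is finite.
-/

set_option autoImplicit false

namespace Pool.Agent.Results.MP_859dd5_ag.PrimePowerBlocksH95

open Pool.Agent.W495.TA Pool.Agent.TH117.BL Pool.Agent.V7H82.NR Pool.Agent.V7H95.Fin

/-- **Finiteness of the unramified cohomology `H³_nr(X, ℚ/ℤ(2))`** of the smooth projective varieties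
`X` over finite fields which are dominated by abelian varieties whose Frobenius eigenvalues lie in
regular blocks, for example generate fields of prime power degree over imaginary quadratic fields,
with a sum of weights which is prime to this degree. -/
theorem result (p : ℕ) [Fact p.Prime] (ν : PadicAlgCl p ≃+* ℂ) (Ω : Type) [Field Ω]
    [IsAlgClosed Ω] [CharZero Ω] (Z Y : RedAV p ν) (hZ : HasRegularBlocks Z)
    (hY : IsPowersTimesSupersingular Z Y) (D : ChowData Ω Y 2) (X : UnramifiedData D) :
    Finite X.Nr :=
  finite_unramified Z (Pool.Agent.V7H82.MO.upTo_of_elementary (elementary_of_blocks hZ) 2) Ω Y hY
    D X

end Pool.Agent.Results.MP_859dd5_ag.PrimePowerBlocksH95
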